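import Pool.Agent.Q45.ML.Euler

/-!
# Soulé's conjecture at `s = 0`: an exact criterion in terms of closed points

For `X` a scheme whose closed points have finite residue fields, `∑ N(x)^{-σ} < ∞` for `σ > d`, and `Z` a
function with `Z(s) = ∏ (1 - N(x)^{-s})⁻¹` for `Re s > d`, meromorphic along the real segment `[0, d]`, the
order and the leading coefficient of `Z` at `s = 0` are read off from the absolutely convergent sums
`S_γ(T) = ∑_{x, k ≥ 1} (1/k) e^{iγ k log N(x)/T} / Γ(1 + k log N(x)/T)`, `γ > π/2`.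
-/

set_option autoImplicit false

namespace Pool.Agent.Results.MP_f3836a_nt.ClosedPointSums

open AlgebraicGeometry Filter Topology Asymptotics Pool.Agent.Q45.ML

/-- the closed points of `X` -/
abbrev Pt (X : Scheme.{0}) : Type := {x : X // IsClosed ({x} : Set X)}

/-- the number of elements of the residue field -/
noncomputable def norm (X : Scheme.{0}) (x : Pt X) : ℝ := Nat.card (X.residueField x.1)

/-- the term at `(x, k)`, `k = z.2 + 1`: `(1/k) e^{iγ k log N(x)/T} / Γ(1 + k log N(x)/T)` -/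
noncomputable def term (X : Scheme.{0}) (γ T : ℝ) (z : Pt X × ℕ) : ℂ :=
  1 / (z.2 + 1) * (Complex.exp ((γ * ((z.2 + 1) * Real.log (norm X z.1) / T) : ℝ) * Complex.I) /
    (Real.Gamma (1 + (z.2 + 1) * Real.log (norm X z.1) / T) : ℂ))

/-- `S_γ(T)` -/
noncomputable def S (X : Scheme.{0}) (γ T : ℝ) : ℂ := ∑' z, term X γ T z

/-- the constant `Λ(γ) = ∫_0^∞ (e^{-t} - e^{iγt}/Γ(1+t)) dt/t` -/
noncomputable def Lam (γ : ℝ) : ℂ := Pool.Agent.W187.UR.Lam γ

theorem term_eq (X : Scheme.{0}) (γ T : ℝ) (z : Pt X × ℕ) :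
    term X γ T z = sterm (norm X) (fun _ (_ : Fin 1) => (1 : ℂ)) 0 γ T z := by
  unfold term sterm
  simp

theorem result (X : Scheme.{0}) (d : ℕ) (hd : 1 ≤ d)
    (hfin : ∀ x : Pt X, Finite (X.residueField x.1))
    (hsum : ∀ σ : ℝ, d < σ → Summable fun x : Pt X => norm X x ^ (-σ))
    (Z : ℂ → ℂ)
    (hZ : ∀ s : ℂ, d < s.re → HasProd (fun x : Pt X => (1 - (norm X x : ℂ) ^ (-s))⁻¹) (Z s))
    (hmer : ∀ σ : ℝ, 0 ≤ σ → σ ≤ d → MeromorphicAt Z (σ : ℂ))
    (H : ℕ → Type) [∀ i, AddCommGroup (H i)] [∀ i, Module ℚ (H i)]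
    [∀ i, FiniteDimensional ℚ (H i)] (_hH : {i | Nontrivial (H i)}.Finite)
    {γ : ℝ} (hγ : Real.pi / 2 < γ) :
    (∀ T : ℝ, 0 < T → Summable fun z => ‖term X γ T z‖) ∧
    (∃ (m : ℤ) (r : ℂ), meromorphicOrderAt Z 0 = m ∧
      Complex.exp r = meromorphicTrailingCoeffAt Z 0 ∧
      r.im = -Real.pi * (∑ᶠ σ ∈ Set.Ioi (0 : ℝ), (meromorphicOrderAt Z (σ : ℂ)).untop₀ : ℤ) ∧
      (fun T : ℝ => S X γ T - (r - m * (Real.log T - Lam γ))) =O[atTop] (fun T : ℝ => 1 / T)) ∧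
    List.TFAE [
      meromorphicOrderAt Z 0 = (∑ᶠ i, (-1) ^ (i + 1) * (Module.finrank ℚ (H i) : ℤ) : ℤ),
      ∃ M : ℝ, ∀ᶠ T : ℝ in atTop,
        |(S X γ T).re + (∑ᶠ i, (-1) ^ (i + 1) * (Module.finrank ℚ (H i) : ℤ) : ℤ) * Real.log T| ≤ M,
      Tendsto (fun T : ℝ => (S X γ T).re / Real.log T) atTop
        (𝓝 (-(∑ᶠ i, (-1) ^ (i + 1) * (Module.finrank ℚ (H i) : ℤ) : ℤ))),
      ∃ t : ℕ → ℝ, Tendsto t atTop atTop ∧
        Tendsto (fun n => (S X γ (t n)).re / Real.log (t n)) atTop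
          (𝓝 (-(∑ᶠ i, (-1) ^ (i + 1) * (Module.finrank ℚ (H i) : ℤ) : ℤ)))] := by
  have E : Eul 1 (norm X) (fun _ (_ : Fin 1) => (1 : ℂ)) 0 d := by
    refine ⟨by positivity, fun x => ?_, hsum, fun v j => by simp⟩
    have := hfin x
    have h1 : 1 < Nat.card (X.residueField x.1) := Finite.one_lt_card
    unfold norm
    exact_mod_cast h1
  have hr : RealSums (fun (_ : Pt X) (_ : Fin 1) => (1 : ℂ)) := by
    intro v k
    simp
  have hd' : (0 : ℝ) < 0 + d := by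
    have : (1 : ℝ) ≤ d := by exact_mod_cast hd
    linarith
  obtain ⟨m, r, h1, h2, h3, h4⟩ := E.law hr (F := Z) (s₀ := 0) hd'
    (fun x hx hx1 => hmer x hx (by linarith))
    (fun s hs => by
      have := hZ s (by linarith)
      simpa using this) hγ
  rw [Complex.ofReal_zero] at h1 h2
  have hS : ∀ T, smooth (norm X) (fun _ (_ : Fin 1) => (1 : ℂ)) 0 γ T = S X γ T := by
    intro T
    unfold smooth S
    simp only [term_eq]
  simp only [hS] at h4
  refine ⟨fun T hT => ?_, ⟨m, r, h1, h2, h3, h4⟩, ?_⟩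
  · simp only [term_eq]
    exact E.sterm_summable 0 γ hT
  · have h5 := order_forms (F := Z) (s₀ := 0) (by rw [Complex.ofReal_zero]; exact h1) h4
      (∑ᶠ i, (-1) ^ (i + 1) * (Module.finrank ℚ (H i) : ℤ))
    unfold OrderForms at h5
    rw [Complex.ofReal_zero] at h5
    exact h5

end Pool.Agent.Results.MP_f3836a_nt.ClosedPointSums
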