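import Pool.Agent.Q193.LT.Soule
import Pool.Agent.Q193.LT.Mod

/-!
# Soulé's conjecture and cubic hypersurfaces over the integers

For a separated scheme `X` of finite type over `ℤ` and an integer `n` let `ζ(X, s)` be the zeta function, and
`K'_i(X)_(n)` the part of `K'_i(X) ⊗ ℚ` of dimension `n` (Soulé; for `X` regular of pure dimension `d`
this is `K_i(X)_ℚ^{(d-n)}`, so `K'_i(X)_(0) = H^{2d-i}(X, ℚ(d))`). Let

* `D.fin n X` say that `ζ(X, s)` has a meromorphic continuation to `ℂ`, that all `K'_i(X)_(n)` have finite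
  dimension and that almost all of them are zero;
* `D.ord n X` be the order of `ζ(X, s)` at `s = n`, and `D.chi n X = ∑_i (-1)^(i+1) dim K'_i(X)_(n)`.

`SouleFormula D X`: for all integers `n`, `D.fin n X` holds and `D.ord n X = D.chi n X`. For `X` regular,
connected, flat and projective over `ℤ` and `n = 0` this is the equality of Q1 (together with (i), (ii)).

The properties `IsSoule D` are known: `ζ(X, s) = ζ(Z, s) ζ(X ∖ Z, s)` and the localization sequence for a
closed subscheme `Z`; `ζ(E, s) = ζ(X, s - r)` and `K'_i(E)_(n) = K'_i(X)_(n-r)` for an affine bundle `E` of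
rank `r` over `X`; `ζ(X × 𝔾_m, s) = ζ(X, s - 1) / ζ(X, s)` and
`K'_i(X × 𝔾_m)_(n) = K'_i(X)_(n-1) ⊕ K'_{i-1}(X)_(n)`; order and groups vanish for `n > dim X`.

For a trilinear form `T(x, y, z) = ∑ t_{ijl} x_i y_j z_l` over `ℤ`, in any numbers of variables, the
hypersurface `T(x, y, z) = 1` is smooth over `ℤ`.

**Theorem.** (1) Soulé's formula holds for all separated schemes of finite type over `ℤ` and all integers
if and only if it holds for the explicit cubics `X_H : ∑_{(i, j, l) ∈ H} x_i y_j z_l = 1` over `ℤ`, `H` any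
finite set of triples.

(2) For all `N`, it holds for all closed subschemes of the affine space of dimension `N` over `ℤ` if and only
if it holds for the hypersurfaces `T(x, y, z) = 1` over `ℤ` such that one of the three blocks of
variables has at most `N + 1` variables (the other two blocks are arbitrary).

(3) By the known case of schemes of dimension at most one (Borel; the premise of the clause), it holds for all
hypersurfaces `T(x, y, z) = 1` over `ℤ` such that one of the three blocks has at most two variables (pencils of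
bilinear forms; their dimension is arbitrarily large).
-/

set_option autoImplicit false

open CategoryTheory CategoryTheory.Limits AlgebraicGeometry Pool.Agent.Y116.UV Pool.Agent.Z125.UN
  Pool.Agent.Q193.LT MvPolynomial

namespace Pool.Agent.Results.MP_f3836a_nt.SouleCubics

/-- The formula for all hypersurfaces `T = 1` with a block of at most `m` variables. -/
def Forms (D : SouleData ℤ) (m : ℕ) : Prop :=
  ∀ (a b c : ℕ) (T : Fin a → Fin b → Fin c → ℤ), (a ≤ m ∨ b ≤ m ∨ c ≤ m) →
    SouleFormula D (hypS T)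

lemma dim_int : ringKrullDim ℤ ≤ 1 := by
  have h : Ring.KrullDimLE 1 ℤ := inferInstance
  exact_mod_cast (Ring.krullDimLE_iff (n := 1) (R := ℤ)).1 h

lemma dim_quot (I : Ideal (MvPolynomial (Fin 1) ℤ)) (hI : I ≠ ⊥) :
    ringKrullDim (MvPolynomial (Fin 1) ℤ ⧸ I) ≤ 1 := by
  obtain ⟨r, hr, hr0⟩ := Submodule.exists_mem_ne_zero_of_ne_bot hI
  have h1 : ringKrullDim (MvPolynomial (Fin 1) ℤ) = ringKrullDim ℤ + 1 := by
    rw [MvPolynomial.ringKrullDim_of_isNoetherianRing]
    simp
  have h2 := ringKrullDim_quotient_succ_le_of_nonZeroDivisor (mem_nonZeroDivisors_of_ne_zero hr0)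
  have h3 : ringKrullDim (MvPolynomial (Fin 1) ℤ ⧸ I) ≤
      ringKrullDim (MvPolynomial (Fin 1) ℤ ⧸ Ideal.span {r}) :=
    ringKrullDim_le_of_surjective
      (Ideal.Quotient.factor ((Ideal.span_singleton_le_iff_mem I).mpr hr))
      (Ideal.Quotient.factor_surjective _)
  have h4 : ringKrullDim (MvPolynomial (Fin 1) ℤ) ≤ 1 + 1 := by
    rw [h1]
    gcongr
    exact dim_int
  have h5 : ringKrullDim (MvPolynomial (Fin 1) ℤ ⧸ Ideal.span {r}) + 1 ≤ 1 + 1 := h2.trans h4
  exact h3.trans (ENat.WithBot.add_le_add_one_right_iff.mp h5)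

/-- **Soulé's conjecture and cubic hypersurfaces over the integers.** See the explanations above. `point`
is the known case of `Spec ℤ`. -/
theorem result {D : SouleData ℤ} (hD : IsSoule D) (point : SouleFormula D (aff ℤ ℤ)) :
    ((∀ X : Sch ℤ, FT True X → SouleFormula D X) ↔
      ∀ (a b c : ℕ) (H : Finset (Fin a × Fin b × Fin c)), SouleFormula D (tripS ℤ H)) ∧
    (∀ N : ℕ, (∀ I : Ideal (MvPolynomial (Fin N) ℤ),
        SouleFormula D (aff ℤ (MvPolynomial (Fin N) ℤ ⧸ I))) ↔ Forms D (N + 1)) ∧
    ((∀ X : Sch ℤ, FT True X → topologicalKrullDim X.left ≤ 1 → SouleFormula D X) →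
      Forms D 2) := by
  have h1 : Bnd True (SouleFormula D) := bnd_soule hD point
  have h2 : ∀ N : ℕ, (∀ I : Ideal (MvPolynomial (Fin N) ℤ),
      SouleFormula D (aff ℤ (MvPolynomial (Fin N) ℤ ⧸ I))) ↔ Forms D (N + 1) := by
    intro N
    constructor
    · intro h a b c T hm
      exact of_block h1 (fun a b c' hc' T => to_tri h1 h a b c' hc' T) T hm
    · intro h
      exact (graded h1 N).mpr fun a b T => h a b (N + 1) T (Or.inr (Or.inr le_rfl))
  refine ⟨⟨fun h a b c H => h _ (ft_aff True), fun h X hX =>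
    universal_frac (frac_of_surj fun r => ⟨r, rfl⟩) h1.toUni h X hX⟩, h2, fun known =>
    (h2 1).mp fun I => ?_⟩
  by_cases hI : I = ⊥
  · subst hI
    exact iso_alg h1.toUni (AlgEquiv.quotientBot ℤ (MvPolynomial (Fin 1) ℤ)).symm (h1.space 1)
  · refine known _ (ft_aff True) ?_
    change topologicalKrullDim (PrimeSpectrum (MvPolynomial (Fin 1) ℤ ⧸ I)) ≤ 1
    rw [PrimeSpectrum.topologicalKrullDim_eq_ringKrullDim]
    exact dim_quot I hI

end Pool.Agent.Results.MP_f3836a_nt.SouleCubics
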