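import Pool.Agent.Q73.SZ.Main

/-!
# Soulé's conjecture at all integers, torsors and punctured cones

For a regular scheme `X` of finite type over `ℤ` and an integer `n`, Soulé's conjecture at `s = n`
says that the order of the zeta function of `X` at `s = n` is `-∑ (-1)^i dim CH_n(X, i)_ℚ`. For
`n = 0` and `X` of dimension `d` the groups are `H^{2d-i}(X, ℚ(d))`.

Let `X ⟶ Y` be a torsor under a split connected linear group scheme of dimension `t` (or a composite
of torsors under vector bundles, torsors under the multiplicative group, and flag bundles, of
relative dimension `t`). Then the conjecture holds for `Y` at all `n ≥ m` if and only if it holds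
for `X` at all `n ≥ m + t`.

For `X` the complement of the zero section of a line bundle on `Y` (for instance the punctured affine
cone over a projective scheme `Y`) the conjecture for `Y` at the single point `s = m`, for instance
`s = 0`, is equivalent to the vanishing of the sum, over `n > m`, of the differences of the two
sides of the formula for `X` at `s = n`.
-/

set_option autoImplicit false

namespace Pool.Agent.Results.MP_f3836a_nt.TorsorsAndCones

open Pool.Agent.Q73.SZ

universe u w

/-- **Soulé's conjecture, torsors and punctured cones.** -/
theorem result (D : Schemes.{u, w}) (hD : D.IsArithmetic) :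
    -- (1) composites of torsors of relative dimension `t`
    (∀ (t : ℕ) (X Y : D.Sch), D.Tower t X Y → ∀ m : ℤ,
      (∀ n, m + t ≤ n → D.Soule X n) ↔ ∀ n, m ≤ n → D.Soule Y n) ∧
    -- (2) a single point
    (∀ X Y : D.Sch, D.Mult X Y → ∀ m : ℤ, (∀ n, m < n → FD (D.K X n)) →
      ∃ p₀ : ℕ, ∀ p : ℕ, p₀ ≤ p →
        (D.Soule Y m ↔ ∑ i ∈ Finset.range p, defect D X (m + 1 + i) = 0)) :=
  ⟨fun _ _ _ h => tower_iff hD h, fun _ _ h m hF => single hD h m hF⟩

end Pool.Agent.Results.MP_f3836a_nt.TorsorsAndCones
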